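import Mathlib

namespace Pool.Agent.H.MP_32cd73_al

open Finset
open scoped Pointwise

def SS (U : Set ℂ) : ℕ → Set ℂ
  | 0 => {0}
  | n + 1 => U + SS U n

theorem SS_finite {U : Set ℂ} (h : U.Finite) : ∀ n, (SS U n).Finite
  | 0 => Set.finite_singleton _
  | n + 1 => h.add (SS_finite h n)

theorem SS_compact {U : Set ℂ} (h : IsCompact U) : ∀ n, IsCompact (SS U n)
  | 0 => isCompact_singleton
  | n + 1 => h.add (SS_compact h n)

theorem SS_countable {U : Set ℂ} (h : U.Countable) : ∀ n, (SS U n).Countable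
  | 0 => Set.countable_singleton _
  | n + 1 => h.image2 (SS_countable h n) _

theorem SS_mono {U : Set ℂ} (h : 0 ∈ U) {m n : ℕ} (hmn : m ≤ n) : SS U m ⊆ SS U n := by
  induction hmn with
  | refl => exact subset_rfl
  | step _ ih => exact fun z hz => ⟨0, h, z, ih hz, zero_add z⟩

theorem zero_mem_SS {U : Set ℂ} (h : 0 ∈ U) (n : ℕ) : 0 ∈ SS U n := SS_mono h (Nat.zero_le n) rfl

theorem sum_mem_SS {U : Set ℂ} (h : 0 ∈ U) {ι : Type} (s : Finset ι) (w : ι → ℂ)
    (hw : ∀ i ∈ s, w i ∈ U) {n : ℕ} (hn : s.card ≤ n) : ∑ i ∈ s, w i ∈ SS U n := by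
  classical
  refine SS_mono h hn ?_
  clear hn
  induction s using Finset.induction_on with
  | empty => rfl
  | insert a s ha ih =>
    rw [sum_insert ha, card_insert_of_notMem ha]
    exact ⟨w a, hw a (mem_insert_self _ _), _, ih fun i hi => hw i (mem_insert_of_mem hi), rfl⟩

def U (m : ℕ) : Set ℂ := {z | z = 0 ∨ z = -1 ∨ z ^ m = 1}

theorem U_finite {m : ℕ} (hm : 0 < m) : (U m).Finite := by
  refine ((Polynomial.nthRoots m (1 : ℂ)).toFinset.finite_toSet.insert (-1)).insert 0 |>.subset ?_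
  rintro z (h | h | h)
  · exact Or.inl h
  · exact Or.inr (Or.inl h)
  · exact Or.inr (Or.inr (by simpa [Polynomial.mem_nthRoots hm] using h))

def T (m : ℕ) : Set ℂ :=
  {w | w = 0 ∨ ∃ N : ℕ, 1 ≤ N ∧ ‖w‖ ^ 2 * N ≤ 1 ∧ (N : ℂ) * w ∈ SS (U m) N}

theorem T_piece {m : ℕ} (hm : 0 < m) (N : ℕ) :
    {w : ℂ | 1 ≤ N ∧ (N : ℂ) * w ∈ SS (U m) N}.Finite := by
  refine ((SS_finite (U_finite hm) N).image fun z : ℂ => z / (N : ℂ)).subset ?_
  rintro w ⟨h1, h2⟩
  have : (N : ℂ) ≠ 0 := by exact_mod_cast (by omega : N ≠ 0)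
  exact ⟨_, h2, by field_simp⟩

theorem T_countable {m : ℕ} (hm : 0 < m) : (T m).Countable := by
  refine ((Set.countable_iUnion fun N => (T_piece hm N).countable).insert 0).mono ?_
  rintro w (h | ⟨N, h1, -, h3⟩)
  · exact Or.inl h
  · exact Or.inr (Set.mem_iUnion.2 ⟨N, h1, h3⟩)

theorem T_compact {m : ℕ} (hm : 0 < m) : IsCompact (T m) := by
  have h : Filter.Tendsto (Subtype.val : T m → ℂ) Filter.cofinite (nhds 0) := by
    rw [Metric.tendsto_nhds]
    intro ε hε
    rw [Filter.eventually_cofinite]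
    obtain ⟨K, hK⟩ := exists_nat_ge (1 / ε ^ 2)
    have hf := (Set.finite_Iic K).biUnion fun N _ => T_piece hm N
    refine (hf.preimage Subtype.val_injective.injOn).subset ?_
    rintro ⟨w, h | ⟨N, h1, h2, h3⟩⟩ hw
    · simp [h] at hw; linarith
    · simp only [dist_zero_right, not_lt, Set.mem_ofPred_eq] at hw
      refine Set.mem_biUnion (x := N) ?_ ⟨h1, h3⟩
      have e : ε ^ 2 * N ≤ 1 := le_trans (by gcongr) h2
      have : (N : ℝ) ≤ K := le_trans (by rw [le_div_iff₀ (by positivity)]; linarith) hK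
      exact_mod_cast this
  have := h.isCompact_insert_range_of_cofinite
  rwa [Subtype.range_coe, Set.insert_eq_of_mem (show (0 : ℂ) ∈ T m from Or.inl rfl)] at this

theorem sum_coset {G : Type} [Group G] [Fintype G] (H : Subgroup G) [Fintype H] [Fintype (G ⧸ H)]
    (F : G → ℂ) : ∑ g, F g = ∑ c : G ⧸ H, ∑ h : H, F (c.out * h) := by
  rw [← Fintype.sum_prod_type']
  refine (Function.Bijective.sum_comp (e := fun p : (G ⧸ H) × H => p.1.out * p.2) ⟨?_, ?_⟩ F).symm
  · rintro ⟨c, h⟩ ⟨d, k⟩ e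
    have e1 : c = d := by
      have := congrArg (QuotientGroup.mk (s := H)) e
      simpa using this
    subst e1
    exact Prod.ext rfl (Subtype.ext (mul_left_cancel e))
  · intro g
    obtain ⟨h, e⟩ := QuotientGroup.mk_out_eq_mul H g
    exact ⟨(g, h⁻¹), by simp [e]⟩

theorem gauss {L : Type} [Group L] [Fintype L] {m : ℕ} (hm : 0 < m) (f : L → ℂ) (b : L → L → ℂ)
    (hf : ∀ h k, f (h * k) = f h * f k * b h k) (hb1 : ∀ h h' k, b (h * h') k = b h k * b h' k)
    (hb2 : ∀ h k k', b h (k * k') = b h k * b h k') (hfm : ∀ h, f h ^ m = 1) (d : ℕ) (hd : 1 ≤ d) :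
    (∑ h, f h) / (d * Fintype.card L) ∈ T m := by
  classical
  have fn : ∀ h, ‖f h‖ = 1 := fun h => Complex.norm_eq_one_of_pow_eq_one (hfm h) hm.ne'
  have f0 : ∀ h, f h ≠ 0 := fun h e => by simpa [e] using fn h
  have b0 : ∀ h k, b h k ≠ 0 := fun h k e => f0 (h * k) (by rw [hf, e, mul_zero])
  have b1 : ∀ h, b h 1 = 1 := fun h => by
    have := hb2 h 1 1
    rw [mul_one] at this
    exact (mul_eq_left₀ (b0 h 1)).1 this.symm
  have b1' : ∀ k, b 1 k = 1 := fun k => by
    have := hb1 1 1 k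
    rw [mul_one] at this
    exact (mul_eq_left₀ (b0 1 k)).1 this.symm
  have f1 : f 1 = 1 := by
    have := hf 1 1
    rw [mul_one, b1, mul_one] at this
    exact (mul_eq_left₀ (f0 1)).1 this.symm
  let R : Subgroup L :=
    { carrier := {k | ∀ h, b h k = 1}
      one_mem' := b1
      mul_mem' := fun {k k'} hk hk' h => by rw [hb2, hk h, hk' h, mul_one]
      inv_mem' := fun {k} hk h => by
        have := hb2 h k⁻¹ k
        rw [inv_mul_cancel, b1, hk h, mul_one] at this
        exact this.symm }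
  have hR : ∀ k, k ∈ R ↔ ∀ h, b h k = 1 := fun _ => Iff.rfl
  set n := Fintype.card (L ⧸ R) with hn
  have hL : Fintype.card L = n * Fintype.card R := by
    simpa using R.card_eq_card_quotient_mul_card_subgroup
  have Rp : 0 < Fintype.card R := Fintype.card_pos
  have np : 0 < n := Fintype.card_pos
  set S := ∑ h, f h with hS
  have hS1 : S = (∑ c : L ⧸ R, f c.out) * ∑ r : R, f r := by
    rw [hS, sum_coset R, sum_mul_sum]
    exact sum_congr rfl fun c _ => sum_congr rfl fun r _ => by rw [hf, r.2, mul_one]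
  let φ : R →* ℂ := ⟨⟨fun r => f r, f1⟩, fun r r' => by
    show f (r * r') = f r * f r'
    rw [hf, r'.2, mul_one]⟩
  by_cases hφ : φ = 1
  swap
  · left
    rw [hS1, show ∑ r : R, f r = 0 from sum_hom_units_eq_zero φ hφ, mul_zero, zero_div]
  have fR : ∀ r : R, f r = 1 := fun r => DFunLike.congr_fun hφ r
  have hS2 : (‖S‖ : ℂ) ^ 2 = Fintype.card R * Fintype.card L := by
    rw [← Complex.mul_conj', hS, map_sum, mul_sum]
    have e1 : ∀ h, (∑ g, f g) * (starRingEnd ℂ) (f h) = ∑ k, f k * b h k := fun h => by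
      rw [← Equiv.sum_comp (Equiv.mulLeft h), sum_mul]
      refine sum_congr rfl fun k _ => ?_
      have := Complex.mul_conj' (f h)
      rw [fn, Complex.ofReal_one, one_pow] at this
      rw [Equiv.coe_mulLeft, hf]
      linear_combination (f k * b h k) * this
    simp only [e1]
    rw [sum_comm]
    have e2 : ∀ k, ∑ h, f k * b h k = if k ∈ R then (Fintype.card L : ℂ) else 0 := fun k => by
      rw [← mul_sum]
      split_ifs with hk
      · rw [fR ⟨k, hk⟩]; simp [(hR k).1 hk]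
      · let ψ : L →* ℂ := ⟨⟨fun h => b h k, b1' k⟩, fun h h' => hb1 h h' k⟩
        have : ψ ≠ 1 := fun e => hk fun h => DFunLike.congr_fun e h
        rw [show ∑ h, b h k = 0 from sum_hom_units_eq_zero ψ this, mul_zero]
    simp only [e2]
    rw [← sum_filter, sum_const, nsmul_eq_mul, Fintype.card_subtype]
  have hS3 : ‖S‖ ^ 2 = Fintype.card R * Fintype.card L := by exact_mod_cast hS2
  right
  refine ⟨d * n, Nat.mul_pos hd np, ?_, ?_⟩
  · rw [norm_div, div_pow, hS3, hL, norm_mul, Complex.norm_natCast, Complex.norm_natCast]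
    have : (1 : ℝ) ≤ d := by exact_mod_cast hd
    have : (0 : ℝ) < n := by exact_mod_cast np
    have : (0 : ℝ) < Fintype.card R := by exact_mod_cast Rp
    push_cast
    field_simp
    assumption
  · have e : ((d * n : ℕ) : ℂ) * (S / (d * Fintype.card L)) = ∑ c : L ⧸ R, f c.out := by
      rw [hS1, hL]
      simp only [fR, sum_const, card_univ, nsmul_eq_mul, mul_one]
      have : (d : ℂ) ≠ 0 := by exact_mod_cast (by omega : d ≠ 0)
      have : (n : ℂ) ≠ 0 := by exact_mod_cast np.ne'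
      have : (Fintype.card R : ℂ) ≠ 0 := by exact_mod_cast Rp.ne'
      push_cast
      field_simp
    rw [e]
    exact sum_mem_SS (Or.inl rfl) _ _ (fun c _ => Or.inr (Or.inr (hfm _)))
      (Nat.le_mul_of_pos_left _ hd)

end Pool.Agent.H.MP_32cd73_al
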