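import Mathlib

namespace Pool.Agent.H.MP_32cd73_al

open Finset Subgroup
open scoped Pointwise commutatorElement

section
variable {G : Type} [Group G] [Fintype G] [DecidableEq G]

def cl (g : G) : Finset G := univ.image (fun y => y * g * y⁻¹)

theorem mem_cl {g a : G} : a ∈ cl g ↔ ∃ y, y * g * y⁻¹ = a := by simp [cl]

theorem card_cl (g : G) : (cl g).card = (centralizer {g}).index := by
  have e : (centralizer {g}).index = (MulAction.stabilizer (ConjAct G) g).index := by
    rw [centralizer_eq_comap_stabilizer]; rfl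
  rw [e, MulAction.index_stabilizer, ← Set.ncard_coe_finset]
  congr 1
  ext a
  rw [mem_coe, mem_cl, MulAction.mem_orbit_iff]
  constructor
  · rintro ⟨y, rfl⟩; exact ⟨ConjAct.toConjAct y, ConjAct.toConjAct_smul y g⟩
  · rintro ⟨y, rfl⟩; exact ⟨ConjAct.ofConjAct y, (ConjAct.smul_def y g).symm⟩

theorem cl_mul (g h : G) : (cl (g * h)).card ≤ (cl g).card * (cl h).card := by
  refine le_trans (card_le_card ?_) card_mul_le
  intro a ha
  obtain ⟨y, rfl⟩ := mem_cl.1 ha
  exact mem_mul.2 ⟨_, mem_cl.2 ⟨y, rfl⟩, _, mem_cl.2 ⟨y, rfl⟩, by group⟩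

theorem cl_inv (g : G) : (cl g⁻¹).card = (cl g).card := by
  rw [← card_inv (cl g)]
  congr 1
  ext a
  rw [mem_inv', mem_cl, mem_cl]
  constructor
  · rintro ⟨y, rfl⟩; exact ⟨y, by group⟩
  · rintro ⟨y, h⟩; exact ⟨y, by rw [← inv_inv a, ← h]; group⟩

theorem cl_conj (y g : G) : cl (y * g * y⁻¹) = cl g := by
  ext a
  rw [mem_cl, mem_cl]
  constructor
  · rintro ⟨z, rfl⟩; exact ⟨z * y, by group⟩
  · rintro ⟨z, rfl⟩; exact ⟨z * y⁻¹, by group⟩

theorem cl_pos (g : G) : 0 < (cl g).card := card_pos.2 ⟨g, mem_cl.2 ⟨1, by group⟩⟩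

theorem bfc (n : ℕ) (hn : ∀ g : G, (cl g).card ≤ n) :
    Nat.card (commutatorSet G) ≤ n ^ n * (n * n * n) := by
  obtain ⟨a, -, ha⟩ := exists_max_image (univ : Finset G) (fun g => (cl g).card) ⟨1, mem_univ _⟩
  have ha : ∀ g, (cl g).card ≤ (cl a).card := fun g => ha g (mem_univ _)
  choose t ht using fun b : cl a => mem_cl.1 b.2
  set C : Subgroup G := ⨅ b : cl a, centralizer {t b} with hC
  have n1 : 1 ≤ n := (cl_pos (1 : G)).trans_le (hn 1)
  have hCi : C.index ≤ n ^ n := by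
    refine (index_iInf_le _).trans ?_
    refine (prod_le_pow_card _ _ n fun b _ => ?_).trans ?_
    · rw [← card_cl]; exact hn _
    · refine Nat.pow_le_pow_right n1 ?_
      simpa using hn a
  have key : ∀ c ∈ C, ∀ y, ∃ a1 ∈ cl a, ∃ a2 ∈ cl a, y * c * y⁻¹ = c * a1 * a2⁻¹ := by
    intro c hc y
    have hs : (cl a).image (fun b => c * b) ⊆ cl (c * a) := by
      intro z hz
      obtain ⟨b, hb, rfl⟩ := mem_image.1 hz
      have h1 := mem_centralizer_singleton_iff.1 (mem_iInf.1 hc ⟨b, hb⟩)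
      refine mem_cl.2 ⟨t ⟨b, hb⟩, ?_⟩
      have h2 : t ⟨b, hb⟩ * a * (t ⟨b, hb⟩)⁻¹ = b := ht ⟨b, hb⟩
      rw [← mul_assoc, ← h1, mul_assoc c, mul_assoc c, h2]
    have he := eq_of_subset_of_card_le hs (by
      rw [card_image_of_injective _ (mul_right_injective c)]; exact ha _)
    have : y * (c * a) * y⁻¹ ∈ (cl a).image (fun b => c * b) := he ▸ mem_cl.2 ⟨y, rfl⟩
    obtain ⟨b, hb, e⟩ := mem_image.1 this
    exact ⟨b, hb, y * a * y⁻¹, mem_cl.2 ⟨y, rfl⟩, by rw [e]; group⟩
  classical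
  letI : Fintype (G ⧸ C) := Fintype.ofFinite _
  set S : Finset G := univ.biUnion
    (fun q : G ⧸ C => (cl a * (cl a)⁻¹ * (cl q.out)⁻¹).image (fun z => q.out * z)) with hS
  have hsub : commutatorSet G ⊆ S := by
    rintro _ ⟨x, y, rfl⟩
    obtain ⟨c, hc⟩ := QuotientGroup.mk_out_eq_mul C x
    obtain ⟨a1, h1, a2, h2, e⟩ := key c⁻¹ (C.inv_mem c.2) y
    rw [mem_coe, hS, mem_biUnion]
    refine ⟨(x : G ⧸ C), mem_univ _, mem_image.2 ⟨_, mul_mem_mul (mul_mem_mul
      (a := (c : G)⁻¹ * a2 * (c : G)⁻¹⁻¹) (b := ((c : G)⁻¹ * a1 * (c : G)⁻¹⁻¹)⁻¹) ?_ (inv_mem_inv ?_))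
      (inv_mem_inv (mem_cl.2 ⟨y, rfl⟩)), ?_⟩⟩
    · obtain ⟨z, rfl⟩ := mem_cl.1 h2
      exact mem_cl.2 ⟨(c : G)⁻¹ * z, by group⟩
    · obtain ⟨z, rfl⟩ := mem_cl.1 h1
      exact mem_cl.2 ⟨(c : G)⁻¹ * z, by group⟩
    · have e2 : a1 = c * (y * (c : G)⁻¹ * y⁻¹) * a2 := by rw [e]; group
      rw [hc, commutatorElement_def, e2]
      group
  refine (Set.ncard_le_ncard hsub (S.finite_toSet)).trans ?_
  rw [Set.ncard_coe_finset, hS]
  refine card_biUnion_le.trans ((sum_le_card_nsmul _ _ (n * n * n) fun q _ => ?_).trans ?_)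
  · refine card_image_le.trans (card_mul_le.trans (Nat.mul_le_mul (card_mul_le.trans ?_) ?_))
    · rw [card_inv]; exact Nat.mul_le_mul (hn _) (hn _)
    · rw [card_inv]; exact hn _
  · rw [smul_eq_mul, card_univ, ← Nat.card_eq_fintype_card, ← index_eq_card]
    exact Nat.mul_le_mul_right _ hCi

theorem many (hI : Fintype.card G ≤ 4 * (univ.filter fun x : G => x * x = 1).card) :
    Fintype.card G ≤ 32 * (univ.filter fun g : G => (cl g).card ≤ 32).card := by
  set I := univ.filter fun x : G => x * x = 1 with hI'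
  set X := univ.filter fun g : G => (cl g).card ≤ 32 with hX
  set N := Fintype.card G with hN
  set r : G → ℕ := fun g => (I.filter fun y => g * y ∈ I).card with hr
  have h1 : ∑ g, r g = I.card * I.card := by
    simp only [hr, card_filter]
    rw [sum_comm, ← smul_eq_mul, ← sum_const]
    refine sum_congr rfl fun y _ => ?_
    rw [← card_filter]
    refine card_bij (fun g _ => g * y) (fun g hg => (mem_filter.1 hg).2)
      (fun a _ b _ h => mul_right_cancel h) (fun z hz => ⟨z * y⁻¹, by simpa using hz, by simp⟩)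
  have h2 : ∀ g, r g * (cl g).card ≤ N := by
    intro g
    rw [card_cl, hN, ← Nat.card_eq_fintype_card, ← (centralizer {g}).card_mul_index]
    refine Nat.mul_le_mul_right _ ?_
    rcases (I.filter fun y => g * y ∈ I).eq_empty_or_nonempty with h | ⟨y0, h0⟩
    · simp [hr, h]
    have inv : ∀ y ∈ I.filter (fun y => g * y ∈ I), y * g * y⁻¹ = g⁻¹ := by
      intro y hy
      simp only [hI', mem_filter, mem_univ, true_and] at hy
      have e1 : y⁻¹ = y := inv_eq_of_mul_eq_one_right hy.1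
      rw [e1]
      refine eq_inv_of_mul_eq_one_right ?_
      rw [← hy.2]; group
    show (I.filter fun y => g * y ∈ I).card ≤ _
    rw [← Set.ncard_coe_finset, ← SetLike.coe_sort_coe, Nat.card_coe_set_eq]
    refine Set.ncard_le_ncard_of_injOn (fun y => y0⁻¹ * y) (fun y hy => ?_)
      (fun a _ b _ h => mul_left_cancel h) (Set.toFinite _)
    rw [SetLike.mem_coe, mem_centralizer_singleton_iff]
    have e := (inv y hy).trans (inv y0 h0).symm
    calc y0⁻¹ * y * g = y0⁻¹ * (y * g * y⁻¹) * y := by group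
      _ = g * (y0⁻¹ * y) := by rw [e]; group
  have h3 : ∀ g, 32 * r g ≤ N + 32 * (if g ∈ X then N else 0) := by
    intro g
    have := h2 g
    have hp := cl_pos g
    split_ifs with h
    · nlinarith
    · simp only [hX, mem_filter, mem_univ, true_and, not_le] at h
      nlinarith
  have h4 := sum_le_sum fun g (_ : g ∈ (univ : Finset G)) => h3 g
  rw [← mul_sum, h1, sum_add_distrib, ← mul_sum, sum_ite_mem, univ_inter, sum_const, sum_const,
    card_univ, smul_eq_mul, smul_eq_mul, ← hN] at h4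
  have hp : 0 < N := Fintype.card_pos
  have h5 : N * N ≤ 16 * (I.card * I.card) := by nlinarith
  have : N * N ≤ N * (32 * X.card) := by nlinarith
  exact Nat.le_of_mul_le_mul_left this hp

theorem exists_K (hI : Fintype.card G ≤ 4 * (univ.filter fun x : G => x * x = 1).card) :
    ∃ K : Subgroup G, K.Normal ∧ K.index ≤ 32 ∧ ∀ g ∈ K, (cl g).card ≤ 32 ^ 4 ^ 6 := by
  have h0 := many hI
  set Y : ℕ → Finset G := fun i => univ.filter fun g : G => (cl g).card ≤ 32 ^ 4 ^ i with hY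
  have mY : ∀ i g, g ∈ Y i ↔ (cl g).card ≤ 32 ^ 4 ^ i := fun i g => by simp [hY]
  have hle : ∀ i, (Y i).card ≤ Fintype.card G := fun i => card_le_univ _
  have mono : ∀ i, Y i ⊆ Y (i + 1) := fun i g hg => (mY _ _).2 (((mY _ _).1 hg).trans
    (Nat.pow_le_pow_right (by norm_num) (Nat.pow_le_pow_right (by norm_num) (by omega))))
  have h0 : Fintype.card G ≤ 32 * (Y 0).card := h0
  have hp : 0 < Fintype.card G := Fintype.card_pos
  obtain ⟨i, hi5, hi, hi0⟩ : ∃ i, i ≤ 5 ∧ (Y (i + 1)).card < 2 * (Y i).card ∧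
      Fintype.card G ≤ 32 * (Y i).card := by
    by_contra! h
    have m := fun i => card_le_card (mono i)
    have := m 0; have := m 1; have := m 2; have := m 3; have := m 4; have := m 5
    have := h 0; have := h 1; have := h 2; have := h 3; have := h 4; have := h 5
    have := hle 6
    simp only [Nat.reduceAdd, zero_add] at *
    omega
  set n := 32 ^ 4 ^ i with hn
  have hn4 : 32 ^ 4 ^ (i + 1) = n * n * n * n := by rw [pow_succ, pow_mul]; ring
  have three : ∀ a ∈ Y i, ∀ b ∈ Y i, ∀ c ∈ Y i, ∃ d ∈ Y i, ∃ e ∈ Y i, a * b * c = d * e := by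
    intro a ha b hb c hc
    by_contra! h
    have hd : Disjoint (Y i) ((Y i).image fun z => a * b * c * z) := by
      rw [disjoint_left]
      intro d hd hd'
      obtain ⟨z, hz, e⟩ := mem_image.1 hd'
      refine h d hd z⁻¹ ((mY _ _).2 (by rw [cl_inv]; exact (mY _ _).1 hz)) (by rw [← e]; group)
    have hs : Y i ∪ (Y i).image (fun z => a * b * c * z) ⊆ Y (i + 1) := by
      refine union_subset (mono i) fun d hd => ?_
      obtain ⟨z, hz, rfl⟩ := mem_image.1 hd
      rw [mY, hn4]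
      rw [mY] at ha hb hc hz
      exact (cl_mul _ _).trans (Nat.mul_le_mul ((cl_mul _ _).trans
        (Nat.mul_le_mul ((cl_mul _ _).trans (Nat.mul_le_mul ha hb)) hc)) hz)
    have := card_le_card hs
    rw [card_union_of_disjoint hd, card_image_of_injective _ (mul_right_injective _)] at this
    omega
  have one : (1 : G) ∈ Y i := by
    rw [mY]
    have : cl (1 : G) = {1} := by ext a; simp [mem_cl, eq_comm]
    rw [this, card_singleton]
    exact Nat.one_le_pow _ _ (by norm_num)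
  let K : Subgroup G :=
    { carrier := {g | ∃ a ∈ Y i, ∃ b ∈ Y i, g = a * b}
      one_mem' := ⟨1, one, 1, one, by simp⟩
      mul_mem' := by
        rintro _ _ ⟨a, ha, b, hb, rfl⟩ ⟨c, hc, d, hd, rfl⟩
        obtain ⟨u, hu, v, hv, e⟩ := three a ha b hb c hc
        obtain ⟨w, hw, z, hz, e'⟩ := three u hu v hv d hd
        exact ⟨w, hw, z, hz, by rw [← e', ← e]; group⟩
      inv_mem' := by
        rintro _ ⟨a, ha, b, hb, rfl⟩
        exact ⟨b⁻¹, (mY _ _).2 (by rw [cl_inv]; exact (mY _ _).1 hb), a⁻¹,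
          (mY _ _).2 (by rw [cl_inv]; exact (mY _ _).1 ha), by group⟩ }
  refine ⟨K, ⟨?_⟩, ?_, ?_⟩
  · rintro _ ⟨a, ha, b, hb, rfl⟩ y
    exact ⟨y * a * y⁻¹, (mY _ _).2 (by rw [cl_conj]; exact (mY _ _).1 ha), y * b * y⁻¹,
      (mY _ _).2 (by rw [cl_conj]; exact (mY _ _).1 hb), by group⟩
  · have h1 : (Y i).card ≤ Nat.card K := by
      rw [← Set.ncard_coe_finset, ← SetLike.coe_sort_coe, Nat.card_coe_set_eq]
      exact Set.ncard_le_ncard (fun a ha => ⟨a, ha, 1, one, by simp⟩) (Set.toFinite _)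
    have h2 := K.card_mul_index
    rw [Nat.card_eq_fintype_card (α := G)] at h2
    have h3 : 0 < Nat.card K := Nat.card_pos
    have : Nat.card K * K.index ≤ Nat.card K * 32 := by omega
    exact Nat.le_of_mul_le_mul_left this h3
  · rintro _ ⟨a, ha, b, hb, rfl⟩
    rw [mY] at ha hb
    refine (cl_mul _ _).trans ((Nat.mul_le_mul ha hb).trans ?_)
    have n1 : 1 ≤ n := Nat.one_le_pow _ _ (by norm_num)
    refine le_trans (?_ : n * n ≤ 32 ^ 4 ^ (i + 1))
      (Nat.pow_le_pow_right (by norm_num) (Nat.pow_le_pow_right (by norm_num) (by omega)))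
    rw [hn4, mul_assoc (n * n)]
    exact Nat.le_mul_of_pos_right _ (Nat.mul_pos n1 n1)

end

theorem exists_H : ∃ B M : ℕ, ∀ (G : Type) [Group G] [Fintype G] [DecidableEq G],
    Fintype.card G ≤ 4 * (univ.filter fun x : G => x * x = 1).card →
    ∃ H A : Subgroup G, H.Normal ∧ A.Normal ∧ H.index ≤ M ∧ Nat.card A ≤ B ∧ A ≤ H ∧
      (∀ a ∈ A, ∀ h ∈ H, a * h = h * a) ∧ ∀ h ∈ H, ∀ k ∈ H, ⁅h, k⁆ ∈ A := by
  obtain ⟨n, hn⟩ : ∃ n, n = 32 ^ 4 ^ 6 := ⟨_, rfl⟩
  set B := (range (n ^ n * (n * n * n) + 1)).sup cardCommutatorBound with hB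
  refine ⟨B, 32 * n ^ B, fun G _ _ _ hI => ?_⟩
  obtain ⟨K, hK, hi, hc⟩ := exists_K hI
  rw [← hn] at hc
  have n1 : 1 ≤ n := (cl_pos (1 : G)).trans_le (hc 1 K.one_mem)
  have hB1 : Nat.card (⁅K, K⁆ : Subgroup G) ≤ B := by
    classical
    have h1 := bfc (G := K) n fun g => by
      refine le_trans ?_ (hc g g.2)
      refine card_le_card_of_injOn Subtype.val (fun a ha => ?_) Subtype.val_injective.injOn
      obtain ⟨y, rfl⟩ := mem_cl.1 ha
      exact mem_cl.2 ⟨y, rfl⟩
    have h2 := card_commutator_le_of_finite_commutatorSet (G := K)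
    have h3 : (⁅K, K⁆ : Subgroup G) = (_root_.commutator K).map K.subtype := by
      rw [_root_.commutator_def, map_commutator, ← MonoidHom.range_eq_map, range_subtype]
    rw [h3, card_map_of_injective K.subtype_injective]
    exact h2.trans (le_sup (f := cardCommutatorBound) (mem_range.2 (by omega)))
  have hKK : (⁅K, K⁆ : Subgroup G) ≤ K := commutator_le_left _ _
  set H : Subgroup G := K ⊓ centralizer ((⁅K, K⁆ : Subgroup G) : Set G) with hH
  have hHn : H.Normal := inferInstance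
  have hA : (⁅H, H⁆ : Subgroup G) ≤ ⁅K, K⁆ := commutator_mono inf_le_left inf_le_left
  refine ⟨H, ⁅H, H⁆, hHn, inferInstance, index_inf_le.trans (Nat.mul_le_mul hi ?_),
    (card_le_of_le hA).trans hB1, commutator_le_left _ _,
    fun a ha h hh => (mem_centralizer_iff.1 hh.2) a (hA ha),
    fun h hh k hk => commutator_mem_commutator hh hk⟩
  classical
  have e : centralizer ((⁅K, K⁆ : Subgroup G) : Set G) =
      ⨅ b : (⁅K, K⁆ : Subgroup G), centralizer {(b : G)} := by
    ext g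
    simp only [mem_centralizer_iff, mem_iInf, Set.mem_singleton_iff, forall_eq, SetLike.mem_coe,
      Subtype.forall]
  rw [e]
  refine (index_iInf_le _).trans ((prod_le_pow_card _ _ n fun b _ => ?_).trans ?_)
  · rw [← card_cl]; exact hc _ (hKK b.2)
  · refine Nat.pow_le_pow_right n1 ?_
    rw [card_univ, ← Nat.card_eq_fintype_card]
    exact hB1

end Pool.Agent.H.MP_32cd73_al
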